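import Pool.Agent.Q44.Appr

set_option autoImplicit false

/-! Countable families of properties with few exceptions at the good rational approximations of real
points (from `Pool.Agent.Q44.CF`). -/

namespace Pool.Agent.H106AP

open MeasureTheory Filter Set ENNReal Topology Pool.Agent.Q44.CF Pool.Agent.Q21.DW

/-- The properties `G i` of positive integers hold at the good rational approximations of real points, with the
exponent `s` of the exceptions. -/
structure Approximations {ι : Type*} (s : ℝ) (G : ι → ℕ → Prop) : Prop where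
  /-- the irrational numbers `α` such that, for some index `i` and some integers `(u, v) ≠ (0, 0)`, infinitely many
  convergents `p / q` of the continued fraction of `α` have a `|u p + v q|` without the property `G i`, form a set of
  Hausdorff dimension at most `(1 + s) / 2` -/
  convergents : dimH {α : ℝ | Irrational α ∧ ¬ ∀ i, ∀ u v : ℤ, (u ≠ 0 ∨ v ≠ 0) → ∀ᶠ n in atTop,
    G i (u * (α.convergent n).num + v * (α.convergent n).den).natAbs} ≤ ENNReal.ofReal ((1 + s) / 2)
  /-- the points `α` of `ℝ ^ d` such that, for some index `i` and some nonconstant integer polynomial `F` of degree at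
  most `k` in `d + 1` variables, there are infinitely many integer vectors `x` with `x 0 ≥ 1` and
  `|α j - x j / x 0| ≤ x 0 ^ (-τ)` for all `j`, such that `|F x|` is not zero and does not have the property `G i`,
  form a set of Hausdorff dimension at most `(d + k s) / τ` -/
  points : ∀ (d k : ℕ) (τ : ℝ), 0 < τ →
    dimH {α : Fin d → ℝ | ¬ ∀ i, ∀ F : MvPolynomial (Fin (d + 1)) ℤ, (∀ c, F ≠ MvPolynomial.C c) →
      F.totalDegree ≤ k → {x : Fin (d + 1) → ℤ | (1 ≤ x 0 ∧ ∀ j : Fin d, |α j - x j.succ / x 0| ≤ (x 0 : ℝ) ^ (-τ)) ∧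
        MvPolynomial.eval x F ≠ 0 ∧ ¬ G i (MvPolynomial.eval x F).natAbs}.Finite} ≤ ENNReal.ofReal ((d + k * s) / τ)

theorem approximations_of {ι : Type*} [Countable ι] {s : ℝ} (hs : 0 ≤ s) {G : ι → ℕ → Prop}
    (h : ∀ i, PS s (fun n => ¬ G i n)) : Approximations s G := by
  constructor
  · have h1 := fun i => (at_of_ps hs (h i)).convergents
    refine le_trans (dimH_mono (t := ⋃ i, {α : ℝ | Irrational α ∧ ¬ ∀ u v : ℤ, (u ≠ 0 ∨ v ≠ 0) →
      ∀ᶠ n in atTop, G i (u * (α.convergent n).num + v * (α.convergent n).den).natAbs}) ?_) ?_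
    · rintro α ⟨hirr, hα⟩
      rw [not_forall] at hα
      obtain ⟨i, hi⟩ := hα
      exact mem_iUnion.2 ⟨i, hirr, hi⟩
    · rw [dimH_iUnion]
      exact iSup_le h1
  · intro d k τ hτ
    have h1 := fun i => (at_of_ps hs (h i)).points d k τ hτ
    refine le_trans (dimH_mono (t := ⋃ i, {α : Fin d → ℝ | ¬ ∀ F : MvPolynomial (Fin (d + 1)) ℤ,
      (∀ c, F ≠ MvPolynomial.C c) → F.totalDegree ≤ k → {x : Fin (d + 1) → ℤ | Near α τ x ∧
        MvPolynomial.eval x F ≠ 0 ∧ ¬ G i (MvPolynomial.eval x F).natAbs}.Finite}) ?_) ?_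
    · intro α hα
      rw [mem_setOf_eq, not_forall] at hα
      obtain ⟨i, hi⟩ := hα
      exact mem_iUnion.2 ⟨i, hi⟩
    · rw [dimH_iUnion]
      exact iSup_le h1

end Pool.Agent.H106AP
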